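import Pool.Agent.Q199.SY.Fin

/-! MP_2e62d5_co, Q1: every syndetic set of positive integers contains a product set `A · B` with
`A`, `B` infinite. -/

namespace Pool.Agent.Results.MP_2e62d5_co.SyndeticProductSets

/-- `S` is syndetic: for some `L ≥ 1` every block `{n, n + 1, …, n + L}` with `n ≥ 1` contains an
element of `S`. -/
def Syndetic (S : Set ℕ) : Prop :=
  ∃ L : ℕ, 1 ≤ L ∧ ∀ n : ℕ, 1 ≤ n → ∃ s ∈ S, n ≤ s ∧ s ≤ n + L

/-- Every syndetic set `S` of positive integers contains all products `a * b` with `a ∈ A`, `b ∈ B`,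
for two infinite sets `A`, `B` of positive integers. -/
theorem result (S : Set ℕ) (hS : Syndetic S) :
    ∃ A B : Set ℕ, A.Infinite ∧ B.Infinite ∧ (∀ a ∈ A, 1 ≤ a) ∧ (∀ b ∈ B, 1 ≤ b) ∧
      ∀ a ∈ A, ∀ b ∈ B, a * b ∈ S := by
  obtain ⟨L, _, hL⟩ := hS
  exact Q199.SY.t_fin S ⟨L, hL⟩

end Pool.Agent.Results.MP_2e62d5_co.SyndeticProductSets
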